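import Pool.Agent.H752.GM.Stubs
import Pool.Agent.H620R2.GaugeR.Seq
import Pool.Agent.H620R2.Gauge2.V8
import Pool.Agent.H620R2.Gauge2.Trans

/-! # Task D2: distillation if `P = NP` (helper227) -/

namespace Pool.Agent.H752.GM

open Pool.Agent.NPC Pool.Agent.H620R2.Gauge Finset H568R2 MeasureTheory

namespace D2

/-- one step of the search in a coded list -/
def dstep (s : Bool × List Bool) : Bool × List Bool :=
  match s.2 with
  | [] => s
  | b :: l => if b = true then (s.1 || decide ((unpair l).1 = [true]), (unpair l).2) else s

/-- is `[true]` in the coded list? -/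
def dD (y : List Bool) : List Bool := [(dstep^[y.length] (false, y)).1]

theorem dstep_iter : ∀ (xs : List (List Bool)) (k : ℕ) (f : Bool), xs.length ≤ k →
    dstep^[k] (f, lst xs) = (f || decide ([true] ∈ xs), []) := by
  have hnil : ∀ (k : ℕ) (f : Bool), dstep^[k] (f, []) = (f, []) := by
    intro k f
    induction k with
    | zero => rfl
    | succ k ih => rw [Function.iterate_succ_apply]; exact ih
  intro xs
  induction xs with
  | nil =>
    intro k f _
    rw [show lst [] = [] from rfl, hnil]
    simp
  | cons x xs ih =>
    intro k f hk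
    obtain ⟨k, rfl⟩ : ∃ k', k = k' + 1 := ⟨k - 1, by simp at hk; omega⟩
    rw [Function.iterate_succ_apply]
    have h1 : dstep (f, lst (x :: xs)) = (f || decide (x = [true]), lst xs) := by
      simp only [dstep, lst, unpair_pairBits, if_true]
    rw [h1, ih k _ (by simp at hk; omega)]
    have h2 : decide ([true] ∈ x :: xs) = (decide (x = [true]) || decide ([true] ∈ xs)) := by
      have h3 : (x = [true]) = ([true] = x) := propext eq_comm
      rw [← Bool.decide_or]
      congr 1
      rw [List.mem_cons, h3]
    rw [h2, Bool.or_assoc]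

theorem length_lst : ∀ xs : List (List Bool), xs.length ≤ (lst xs).length
  | [] => le_rfl
  | x :: xs => by
    have := length_lst xs
    have h2 := Pool.Agent.H620R2.Gauge.A2.length_pairBits x (lst xs)
    simp only [lst, List.length_cons, h2]
    omega

theorem dD_lst (xs : List (List Bool)) : dD (lst xs) = [decide ([true] ∈ xs)] := by
  unfold dD
  rw [dstep_iter xs _ false (length_lst xs)]
  simp

theorem dstep_len (s : Bool × List Bool) : (dstep s).2.length ≤ s.2.length := by
  obtain ⟨f, l⟩ := s
  unfold dstep
  match l with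
  | [] => exact le_rfl
  | true :: l =>
    simp only [if_true, List.length_cons]
    have := Pool.Agent.H620R2.Gauge.V8.unpair_snd_len l
    omega
  | false :: l => simp

theorem dstep_iter_len : ∀ (k : ℕ) (s : Bool × List Bool),
    (dstep^[k] s).2.length ≤ s.2.length
  | 0, s => le_refl _
  | k + 1, s => by
    rw [Function.iterate_succ_apply]
    exact (dstep_iter_len k _).trans (dstep_len s)

theorem poly_dstep : Poly dstep := by
  unfold dstep
  refine (Poly.listCases (l := fun s : Bool × List Bool => s.2)
    (g := fun s => s) (h := fun s b l => if b = true then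
      (s.1 || decide ((unpair l).1 = [true]), (unpair l).2) else s) (Poly.snd Poly.id)
    Poly.id ?_).congr ?_
  · have hl : Poly (fun p : (Bool × List Bool) × Bool × List Bool => unpair p.2.2) :=
      poly_unpair.comp (Poly.snd (Poly.snd Poly.id))
    refine Poly.ite (Poly.decide_eq (Poly.fst (Poly.snd Poly.id)) (NPC.Poly.const _)) ?_
      (Poly.fst Poly.id)
    exact Poly.pair (Poly.or (Poly.fst (Poly.fst Poly.id))
      (Poly.decide_eq (Poly.fst hl) (NPC.Poly.const _))) (Poly.snd hl)
  · rintro ⟨f, l⟩
    cases l <;> rfl

theorem poly_dD : Poly dD := by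
  have h : Poly (fun y : List Bool => dstep^[y.length] (false, y)) := by
    refine Poly.iterLen (F := fun _ => dstep) (s := fun y : List Bool => (false, y)) Poly.id
      (Poly.pair (NPC.Poly.const _) Poly.id) (poly_dstep.comp (Poly.snd Poly.id))
      (Polynomial.C 4 * Polynomial.X + 5) ?_
    intro y k _
    have h1 := dstep_iter_len k (false, y)
    have h2 := length_lt_sz y
    have h3 := sz_listBool_le (dstep^[k] (false, y)).2
    have h4 := sz_bool_le (dstep^[k] (false, y)).1
    have h5 : sz (dstep^[k] (false, y)) =
      sz ((dstep^[k] (false, y)).1, (dstep^[k] (false, y)).2) := rfl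
    rw [h5, sz_pair]
    simp only [Polynomial.eval_add, Polynomial.eval_mul, Polynomial.eval_C, Polynomial.eval_X,
      Polynomial.eval_ofNat]
    simp only at h1
    omega
  exact Poly.cons (Poly.fst h) (NPC.Poly.const _)

end D2

theorem t_distill_low : St_distill_low := by
  intro A hA
  refine ⟨{[true]}, ⟨?_, ?_⟩, ?_⟩
  · apply IsP.isNP
    exact ⟨fun x => x, IsFP.of_poly Poly.id, fun x => Iff.rfl⟩
  · intro L hL
    obtain ⟨V, hV, h⟩ := hA L hL
    exact ⟨V, hV, h⟩
  · refine ⟨D2.dD, 1, IsFP.of_poly D2.poly_dD, fun xs _ => ⟨?_, ?_⟩⟩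
    · rw [D2.dD_lst]
      simp
    · intro n _
      rw [D2.dD_lst]
      simp

end Pool.Agent.H752.GM
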