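import Pool.Agent.H752.GM.Stubs
import Pool.Agent.H620R2.GaugeR.Seq
import Pool.Agent.H620R2.GaugeR.R1
import Pool.Agent.H620R2.Gauge2.Trans

/-! # Task M14: inclusions (helper227) -/

namespace Pool.Agent.H752.GM

open Pool.Agent.NPC Pool.Agent.H620R2.Gauge Finset H568R2 MeasureTheory

namespace M14

theorem isFP_snd {A : Oracle} {V : List Bool → List Bool} (hV : IsFP A V) :
    IsFP A (fun z => V (unpair z).2) :=
  IsFP.comp hV (IsFP.of_poly (Poly.snd poly_unpair))

/-- the last `n` members of a list -/
def lastN (l : List Bool) (n : ℕ) : List Bool := (l.reverse.take n).reverse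

theorem lastN_append (a b : List Bool) : lastN (a ++ b) b.length = b := by
  unfold lastN
  rw [List.reverse_append, List.take_left' (by rw [List.length_reverse]), List.reverse_reverse]

/-- the first certificate -/
def c1 (z : List Bool) : List Bool := (unpair (unpair (unpair z).2).1).1
/-- the second certificate -/
def c2 (z : List Bool) : List Bool := (unpair (unpair (unpair z).2).1).2
/-- the input -/
def cx (z : List Bool) : List Bool := (unpair (unpair z).2).2

theorem c1_pair (r y₁ y₂ x : List Bool) :
    c1 (pairBits r (pairBits (pairBits y₁ y₂) x)) = y₁ := by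
  unfold c1; simp only [unpair_pairBits]
theorem c2_pair (r y₁ y₂ x : List Bool) :
    c2 (pairBits r (pairBits (pairBits y₁ y₂) x)) = y₂ := by
  unfold c2; simp only [unpair_pairBits]
theorem cx_pair (r y x : List Bool) : cx (pairBits r (pairBits y x)) = x := by
  unfold cx; simp only [unpair_pairBits]

/-- the verifier for two runs -/
noncomputable def V2 (V : List Bool → List Bool) (p : Polynomial ℕ) (z : List Bool) :
    List Bool :=
  [((decide ((c1 z).length ≤ p.eval (cx z).length) && decide ((c2 z).length ≤ p.eval (cx z).length))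
    && decide (V (pairBits ((unpair z).1.take (p.eval (cx z).length)) (pairBits (c1 z) (cx z)))
      = [true])) &&
    decide (V (pairBits (lastN (unpair z).1 (p.eval (cx z).length)) (pairBits (c2 z) (cx z)))
      = [true])]

theorem isFP_V2 {A : Oracle} {V : List Bool → List Bool} (hV : IsFP A V) (p : Polynomial ℕ) :
    IsFP A (V2 V p) := by
  have hu : Poly (fun z : List Bool => (unpair z).2) := Poly.snd poly_unpair
  have hr : Poly (fun z : List Bool => (unpair z).1) := Poly.fst poly_unpair
  have hy : Poly (fun z : List Bool => unpair (unpair (unpair z).2).1) :=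
    poly_unpair.comp (Poly.fst (poly_unpair.comp hu))
  have h1 : Poly c1 := Poly.fst hy
  have h2 : Poly c2 := Poly.snd hy
  have hx : Poly cx := Poly.snd (poly_unpair.comp hu)
  have hm : UPoly (fun z => p.eval (cx z).length) := UPoly.eval (UPoly.length hx) p
  have ht : Poly (fun z : List Bool => (unpair z).1.take (p.eval (cx z).length)) :=
    R1.poly_take hr hm
  have hl : Poly (fun z : List Bool => lastN (unpair z).1 (p.eval (cx z).length)) :=
    Poly.reverse (R1.poly_take (Poly.reverse hr) hm)
  have hF : IsFP A (fun z => V (pairBits ((unpair z).1.take (p.eval (cx z).length))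
      (pairBits (c1 z) (cx z)))) :=
    IsFP.comp hV (IsFP.of_poly (H622R2.poly_pairBits ht (H622R2.poly_pairBits h1 hx)))
  have hG : IsFP A (fun z => V (pairBits (lastN (unpair z).1 (p.eval (cx z).length))
      (pairBits (c2 z) (cx z)))) :=
    IsFP.comp hV (IsFP.of_poly (H622R2.poly_pairBits hl (H622R2.poly_pairBits h2 hx)))
  have e1 : Poly (fun t : List Bool × List Bool × List Bool => (c1 t.1).length) :=
    Poly.length (h1.comp (Poly.fst Poly.id))
  have e2 : Poly (fun t : List Bool × List Bool × List Bool => (c2 t.1).length) :=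
    Poly.length (h2.comp (Poly.fst Poly.id))
  have e3 : Poly (fun t : List Bool × List Bool × List Bool => p.eval (cx t.1).length) :=
    (hm.comp (Poly.fst Poly.id)).toPoly
  exact IsFP.seq (φ := fun t => t.1)
    (ψ := fun t => [((decide ((c1 t.1).length ≤ p.eval (cx t.1).length) &&
      decide ((c2 t.1).length ≤ p.eval (cx t.1).length)) && decide (t.2.1 = [true])) &&
      decide (t.2.2 = [true])])
    hF hG (Poly.fst Poly.id)
    (Poly.cons (Poly.and (Poly.and (Poly.and (Poly.decide_le e1 e3) (Poly.decide_le e2 e3))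
      (Poly.decide_eq (Poly.fst (Poly.snd Poly.id)) (NPC.Poly.const _)))
      (Poly.decide_eq (Poly.snd (Poly.snd Poly.id)) (NPC.Poly.const _))) (NPC.Poly.const _))

/-- the string `r` is good -/
def Gd (V : List Bool → List Bool) (m : ℕ) (x r : List Bool) : Prop :=
  ∃ y : List Bool, y.length ≤ m ∧ V (pairBits r (pairBits y x)) = [true]

theorem V2_iff (V : List Bool → List Bool) (p : Polynomial ℕ) (x r₁ s r₂ : List Bool)
    (h1 : r₁.length = p.eval x.length) (h2 : r₂.length = p.eval x.length) (M : ℕ)
    (hM : 3 * p.eval x.length + 1 ≤ M) :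
    (∃ y : List Bool, y.length ≤ M ∧ V2 V p (pairBits (r₁ ++ (s ++ r₂)) (pairBits y x)) = [true]) ↔
      Gd V (p.eval x.length) x r₁ ∧ Gd V (p.eval x.length) x r₂ := by
  have e1 : (r₁ ++ (s ++ r₂)).take (p.eval x.length) = r₁ := by
    rw [← h1, List.take_left' rfl]
  have e2 : lastN (r₁ ++ (s ++ r₂)) (p.eval x.length) = r₂ := by
    rw [← h2, ← List.append_assoc, lastN_append]
  constructor
  · rintro ⟨y, _, hy⟩
    unfold V2 at hy
    rw [List.cons.injEq] at hy
    have hy' := hy.1
    simp only [cx_pair, unpair_pairBits, e1, e2, Bool.and_eq_true, decide_eq_true_eq] at hy'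
    obtain ⟨⟨⟨a1, a2⟩, a3⟩, a4⟩ := hy'
    exact ⟨⟨_, a1, a3⟩, ⟨_, a2, a4⟩⟩
  · rintro ⟨⟨y₁, a1, a3⟩, ⟨y₂, a2, a4⟩⟩
    refine ⟨pairBits y₁ y₂, ?_, ?_⟩
    · rw [Pool.Agent.H620R2.Gauge.A2.length_pairBits]
      omega
    · unfold V2
      simp only [c1_pair, c2_pair, cx_pair, unpair_pairBits, e1, e2, a1, a2, a3, a4, decide_true,
        Bool.and_self]

/-- decomposition of the random strings -/
def spl (m : ℕ) : (Fin (m + ((m + 1) + m)) → Bool) ≃
    (Fin m → Bool) × ((Fin (m + 1) → Bool) × (Fin m → Bool)) :=
  (Fin.appendEquiv m ((m + 1) + m)).symm.trans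
    ((Equiv.refl _).prodCongr (Fin.appendEquiv (m + 1) m).symm)

theorem spl_symm (m : ℕ) (w : (Fin m → Bool) × ((Fin (m + 1) → Bool) × (Fin m → Bool))) :
    List.ofFn ((spl m).symm w) = List.ofFn w.1 ++ (List.ofFn w.2.1 ++ List.ofFn w.2.2) := by
  have h : (spl m).symm w = Fin.append w.1 (Fin.append w.2.1 w.2.2) := rfl
  rw [h, List.ofFn_fin_append, List.ofFn_fin_append]

theorem count (m : ℕ) (G : List Bool → Prop) :
    Nat.card {r : Fin (m + ((m + 1) + m)) → Bool // G (List.ofFn ((spl m r).1)) ∧
      G (List.ofFn (spl m r).2.2)} =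
    Nat.card {r : Fin m → Bool // G (List.ofFn r)} ^ 2 * 2 ^ (m + 1) := by
  classical
  have h1 : Nat.card {r : Fin (m + ((m + 1) + m)) → Bool // G (List.ofFn ((spl m r).1)) ∧
      G (List.ofFn (spl m r).2.2)} =
      Nat.card {w : (Fin m → Bool) × ((Fin (m + 1) → Bool) × (Fin m → Bool)) //
        G (List.ofFn w.1) ∧ G (List.ofFn w.2.2)} :=
    Nat.card_congr ((spl m).subtypeEquiv fun r => Iff.rfl)
  rw [h1]
  simp only [Nat.card_eq_fintype_card, Fintype.card_subtype]
  have h2 : (Finset.univ.filter fun w : (Fin m → Bool) × ((Fin (m + 1) → Bool) × (Fin m → Bool)) =>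
      G (List.ofFn w.1) ∧ G (List.ofFn w.2.2)) =
      (Finset.univ.filter fun r : Fin m → Bool => G (List.ofFn r)) ×ˢ
        ((Finset.univ : Finset (Fin (m + 1) → Bool)) ×ˢ
          (Finset.univ.filter fun r : Fin m → Bool => G (List.ofFn r))) := by
    ext w
    simp only [Finset.mem_filter, Finset.mem_univ, true_and, Finset.mem_product]
  rw [h2, Finset.card_product, Finset.card_product, Finset.card_univ]
  simp only [Fintype.card_fun, Fintype.card_bool, Fintype.card_fin]
  ring

end M14

theorem t_incl : St_incl := by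
  refine ⟨?_, ?_, ?_⟩
  · rintro A L ⟨V, p, hV, hL⟩
    refine ⟨fun z => V (unpair z).2, p, M14.isFP_snd hV, fun x => ⟨?_, ?_⟩⟩
    · intro hx
      obtain ⟨w, hw, hVw⟩ := (hL x).1 hx
      refine ⟨w, hw, ?_⟩
      unfold accPr
      simp only [unpair_pairBits, hVw]
      rw [Nat.card_congr (Equiv.subtypeUnivEquiv fun _ => trivial)]
      simp only [Nat.card_eq_fintype_card, Fintype.card_fun, Fintype.card_bool, Fintype.card_fin]
      push_cast
      rw [div_self (by positivity)]
      norm_num
    · intro hx y hy
      have hne : ¬ V (pairBits y x) = [true] := fun h => hx ((hL x).2 ⟨y, hy, h⟩)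
      unfold accPr
      simp only [unpair_pairBits, hne]
      rw [Nat.card_of_isEmpty]
      norm_num
  · rintro A L ⟨V, p, hV, hL⟩
    refine ⟨fun z => V (unpair z).2, p, M14.isFP_snd hV, fun x => ⟨?_, ?_⟩⟩
    · intro hx
      have h := (hL x).1 hx
      unfold exPr
      simp only [unpair_pairBits]
      rw [Nat.card_congr (Equiv.subtypeUnivEquiv fun _ => h)]
      simp only [Nat.card_eq_fintype_card, Fintype.card_fun, Fintype.card_bool, Fintype.card_fin]
      push_cast
      rw [div_self (by positivity)]
    · intro hx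
      have h : ¬ ∃ w : List Bool, w.length ≤ p.eval x.length ∧ V (pairBits w x) = [true] :=
        fun h => hx ((hL x).2 h)
      unfold exPr
      simp only [unpair_pairBits, h]
      rw [Nat.card_of_isEmpty]
      norm_num
  · rintro A L ⟨V, p, hV, hL⟩
    refine ⟨M14.V2 V p, p + ((p + 1) + p), M14.isFP_V2 hV p, fun x => ?_⟩
    have hev : (p + ((p + 1) + p)).eval x.length =
        p.eval x.length + ((p.eval x.length + 1) + p.eval x.length) := by simp
    have key : exPr (M14.V2 V p) ((p + ((p + 1) + p)).eval x.length) x =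
        exPr V (p.eval x.length) x ^ 2 := by
      rw [hev]
      generalize hm : p.eval x.length = m
      unfold exPr
      have h1 : ∀ r : Fin (m + ((m + 1) + m)) → Bool,
          (∃ y : List Bool, y.length ≤ m + ((m + 1) + m) ∧
            M14.V2 V p (pairBits (List.ofFn r) (pairBits y x)) = [true]) ↔
          (M14.Gd V m x (List.ofFn (M14.spl m r).1) ∧
            M14.Gd V m x (List.ofFn (M14.spl m r).2.2)) := by
        intro r
        have h2 := M14.V2_iff V p x (List.ofFn (M14.spl m r).1) (List.ofFn (M14.spl m r).2.1)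
          (List.ofFn (M14.spl m r).2.2) (by rw [List.length_ofFn, hm])
          (by rw [List.length_ofFn, hm]) (m + ((m + 1) + m)) (by rw [hm]; omega)
        rw [← M14.spl_symm, Equiv.symm_apply_apply, hm] at h2
        exact h2
      rw [Nat.card_congr (Equiv.subtypeEquivRight h1), M14.count m (M14.Gd V m x)]
      have h3 : Nat.card {r : Fin m → Bool // M14.Gd V m x (List.ofFn r)} =
          Nat.card {r : Fin m → Bool // ∃ y : List Bool, y.length ≤ m ∧
            V (pairBits (List.ofFn r) (pairBits y x)) = [true]} := rfl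
      rw [h3]
      push_cast
      rw [div_pow, div_eq_div_iff (by positivity) (by positivity)]
      ring
    rw [key]
    constructor
    · intro hx
      rw [(hL x).1 hx]
      norm_num
    · intro hx
      have h1 := (hL x).2 hx
      have h0 : 0 ≤ exPr V (p.eval x.length) x := by
        unfold exPr
        positivity
      nlinarith

end Pool.Agent.H752.GM
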